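import Pool.Agent.N929.AP.Stm

/-! Project AP, leaf TSP: polyominoes as a system of local moves. -/

set_option autoImplicit false

namespace Pool.Agent.N710.AP

open Finset Pool.Agent.N929.EG Pool.Agent.N789.Kl Pool.Agent.N929.AP
open scoped Classical

noncomputable section

lemma mem_ring {v w : Cell} : w ∈ ring v ↔
    w ≠ v ∧ (v.1 - 1 ≤ w.1 ∧ w.1 ≤ v.1 + 1) ∧ (v.2 - 1 ≤ w.2 ∧ w.2 ≤ v.2 + 1) := by
  unfold ring
  rw [Finset.mem_erase, Finset.mem_product, Finset.mem_Icc, Finset.mem_Icc]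

lemma right_mem_ring (v : Cell) : ((v.1 + 1, v.2) : Cell) ∈ ring v := by
  rw [mem_ring]
  refine ⟨?_, ⟨?_, ?_⟩, ?_, ?_⟩
  · intro h
    have := congrArg Prod.fst h
    simp at this
  all_goals (simp; try omega)

lemma mem_SS {P : Finset Cell} {v : Cell} : v ∈ SS P ↔ v ∉ P ∧ ring v ⊆ P := by
  unfold SS
  rw [Finset.mem_filter, Finset.mem_image]
  constructor
  · exact fun h => h.2
  · intro h
    refine ⟨⟨(v.1 + 1, v.2), h.2 (right_mem_ring v), ?_⟩, h⟩
    ext <;> simp

lemma mem_BB {P : Finset Cell} {v : Cell} : v ∈ BB P ↔ v ∈ P ∧ ring v ⊆ P := by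
  unfold BB
  rw [Finset.mem_filter]

/-- conflict of places -/
def cf (v w : Cell) : Prop := |v.1 - w.1| ≤ 1 ∧ |v.2 - w.2| ≤ 1

lemma cf_symm {v w : Cell} (h : cf v w) : cf w v := by
  unfold cf at *
  rw [abs_sub_comm w.1, abs_sub_comm w.2]
  exact h

lemma not_mem_ring_of {q q' : Cell} (h : ¬ cf q q') : q ∉ ring q' ∧ q' ≠ q := by
  constructor
  · intro hm
    rw [mem_ring] at hm
    apply h
    unfold cf
    rw [abs_le, abs_le]
    omega
  · rintro rfl
    apply h
    unfold cf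
    simp

lemma lle_zero_of_ring {P : Finset Cell} (hP : ∀ c ∈ P, lle c 0) {v : Cell} (h : ring v ⊆ P) :
    v.1 + 1 < 0 ∨ (v.1 + 1 = 0 ∧ v.2 ≤ 0) := by
  have h1 := hP _ (h (right_mem_ring v))
  rw [lle_iff] at h1
  simpa using h1

lemma box_of_mem {n N : ℕ} {w : Finset Cell} (hw : w ∈ Tm n) (hN : n ≤ N) {c : Cell}
    (hc : c ∈ w) : (-(N : ℤ) ≤ c.1 ∧ c.1 ≤ N) ∧ (-(N : ℤ) ≤ c.2 ∧ c.2 ≤ N) := by
  rw [mem_Tm] at hw
  have h1 := subset_box hw.2.1 hw.2.2.1 hc
  rw [hw.1] at h1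
  simp only [Pool.Agent.N789.Kl.box, Finset.mem_product, Finset.mem_Icc] at h1
  omega

lemma ring_box {n N : ℕ} {w : Finset Cell} (hw : w ∈ Tm n) (hN : n ≤ N) {v : Cell}
    (hv : ring v ⊆ w) : v ∈ Pool.Agent.N789.Kl.box (N + 1) := by
  have h1 := box_of_mem hw hN (hv (right_mem_ring v))
  simp only [Pool.Agent.N789.Kl.box, Finset.mem_product, Finset.mem_Icc]
  simp only at h1
  push_cast
  omega

theorem tsp (hcn : S_CN) : S_TSP := by
  obtain ⟨hcn1, hcn2, -, -⟩ := hcn
  refine ⟨{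
    K := Tm
    len := Finset.card
    S := SS
    B := BB
    ins := fun P v => insert v P
    rem := fun P v => P.erase v
    s := 1
    cf := cf
    d := 9
    U := fun N => Pool.Agent.N789.Kl.box (N + 1)
    hs := le_refl 1
    len_K := fun n w hw => (mem_Tm.1 hw).1
    ins_K := ?_
    ins_B := ?_
    rem_ins := ?_
    rem_le := ?_
    rem_K := ?_
    rem_S := ?_
    ins_rem := ?_
    disj := ?_
    cf_symm := fun q q' h => cf_symm h
    ins_S := ?_
    ins_BB := ?_
    ins_comm := ?_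
    S_U := ?_
    deg := ?_ }, fun n => rfl, fun P => rfl, fun P => rfl, rfl⟩
  · intro n w q hw hq
    rw [mem_Tm] at hw
    rw [mem_SS] at hq
    rw [mem_Tm]
    refine ⟨?_, hcn1 w q hw.2.1 hq.2, Finset.mem_insert_of_mem hw.2.2.1, ?_⟩
    · rw [Finset.card_insert_of_notMem hq.1, hw.1]
    · intro c hc
      rcases Finset.mem_insert.1 hc with rfl | hc
      · have := lle_zero_of_ring hw.2.2.2 hq.2
        rw [lle_iff]
        simp only [Prod.fst_zero, Prod.snd_zero]
        omega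
      · exact hw.2.2.2 c hc
  · intro n w q _ hq
    rw [mem_SS] at hq
    rw [mem_BB]
    exact ⟨Finset.mem_insert_self _ _, hq.2.trans (Finset.subset_insert _ _)⟩
  · intro n w q _ hq
    rw [mem_SS] at hq
    exact Finset.erase_insert hq.1
  · intro n w q hw hq
    rw [mem_BB] at hq
    rw [mem_Tm] at hw
    rw [← hw.1]
    exact Finset.card_pos.mpr ⟨q, hq.1⟩
  · intro n w q hw hq
    rw [mem_Tm] at hw
    rw [mem_BB] at hq
    rw [mem_Tm]
    refine ⟨?_, hcn2 w q hw.2.1 hq.2, ?_, ?_⟩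
    · rw [Finset.card_erase_of_mem hq.1, hw.1]
    · rw [Finset.mem_erase]
      refine ⟨?_, hw.2.2.1⟩
      intro h0
      have := lle_zero_of_ring hw.2.2.2 hq.2
      rw [← h0] at this
      simp at this
    · intro c hc
      exact hw.2.2.2 c (Finset.mem_of_mem_erase hc)
  · intro n w q _ hq
    rw [mem_BB] at hq
    rw [mem_SS]
    refine ⟨Finset.notMem_erase _ _, ?_⟩
    intro x hx
    rw [Finset.mem_erase]
    exact ⟨(mem_ring.1 hx).1, hq.2 hx⟩
  · intro n w q _ hq
    rw [mem_BB] at hq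
    exact Finset.insert_erase hq.1
  · intro n w q _ hq hq'
    rw [mem_BB] at hq'
    rw [mem_SS] at hq
    exact hq.1 hq'.1
  · intro n w q q' _ hq hcf
    obtain ⟨h1, h2⟩ := not_mem_ring_of hcf
    rw [mem_SS, mem_SS, Finset.mem_insert, Finset.subset_insert_iff_of_notMem h1]
    constructor
    · rintro ⟨h3, h4⟩
      exact ⟨fun h => h3 (Or.inr h), h4⟩
    · rintro ⟨h3, h4⟩
      exact ⟨fun h => h.elim h2 h3, h4⟩
  · intro n w q q' _ hq hcf
    obtain ⟨h1, h2⟩ := not_mem_ring_of hcf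
    rw [mem_BB, mem_BB, Finset.mem_insert, Finset.subset_insert_iff_of_notMem h1]
    constructor
    · rintro ⟨h3, h4⟩
      exact ⟨h3.elim (fun h => (h2 h).elim) id, h4⟩
    · rintro ⟨h3, h4⟩
      exact ⟨Or.inr h3, h4⟩
  · intro n w q q' _ _ _ _
    exact Finset.insert_comm _ _ _
  · intro n N w hw hN
    constructor
    · intro v hv
      exact ring_box hw hN (mem_SS.1 hv).2
    · intro v hv
      exact ring_box hw hN (mem_BB.1 hv).2
  · intro N q _
    have h1 : ((Pool.Agent.N789.Kl.box (N + 1)).filter (fun q' => cf q q')) ⊆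
        (Icc (q.1 - 1) (q.1 + 1)) ×ˢ (Icc (q.2 - 1) (q.2 + 1)) := by
      intro x hx
      rw [Finset.mem_filter] at hx
      have h2 := hx.2
      unfold cf at h2
      rw [abs_le, abs_le] at h2
      rw [Finset.mem_product, Finset.mem_Icc, Finset.mem_Icc]
      omega
    refine (Finset.card_le_card h1).trans ?_
    rw [Finset.card_product, Int.card_Icc, Int.card_Icc]
    have e1 : (q.1 + 1 + 1 - (q.1 - 1)).toNat = 3 := by omega
    have e2 : (q.2 + 1 + 1 - (q.2 - 1)).toNat = 3 := by omega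
    rw [e1, e2]

end

end Pool.Agent.N710.AP
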